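import Pool.Agent.J6H7.SM.Sym
import Pool.Agent.J6H7.SM.Count
import Pool.Agent.J6H7.SC.Final

/-!
# Circuits whose gates have few transforms under the permutations of the input bits

Circuits with `N` inputs, any number of gates and unbounded depth. The gates are AND, OR, NOT
gates of any fan-in (more generally: one of the two values is certified by at most `t` wires),
gates of any fan-in whose value depends only on the number of the ones modulo an odd prime `p`,
and arbitrary gates of fan-in at most `(1 - 2 / k) N`. If every gate has at most `2 ^ (N / (k t))`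
transforms, then its value depends, on the middle layers, only on `2 N / k` of the bits and on the
number of ones modulo a power `q` of `p`, `q ≤ 2 p N / k`. The case `p = 1` is that of circuits with
no modular gates (then `q = 1`).
-/

set_option autoImplicit false

namespace Pool.Agent.Results.MP_5f97e6_lc.FewTransformsMod

open Pool.Agent.J6H7.SM Pool.Agent.NPC
open Pool.Agent.J6H7.SC (Middle inP_L mem_L_ofFn L cb)

theorem result : ∃ L : Set (List Bool), InP L ∧
    ∀ p k t r N : ℕ, (p = 1 ∨ (p.Prime ∧ p ≠ 2)) → 40 * p ≤ k → 1 ≤ t → k * t ≤ N →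
    k * r + 2 * N ≤ k * N → ∀ (I : Type) [Finite I] (C : Circ N t r p I),
      ((∀ h : I, (C.transforms h).ncard ^ (k * t) ≤ 2 ^ N) ∨
        (Nat.card I * N.factorial) ^ (k * t) ≤ 2 ^ N * C.symmetries.ncard ^ (k * t)) →
      ∃ q : ℕ, (∃ e, q = p ^ e) ∧ k * q ≤ 2 * p * N ∧ ∀ g : I,
        (∃ S : Finset (Fin N), k * S.card ≤ 2 * N ∧
          ∀ x y : Fin N → Bool, Middle k x → Middle k y → (∀ i ∈ S, x i = y i) →
            ones x ≡ ones y [MOD q] → C.eval x g = C.eval y g) ∧
        |({x : Fin N → Bool | C.eval x g = true ↔ List.ofFn x ∈ L}.ncard : ℝ) - 2 ^ N / 2| ≤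
          2 ^ N / 2 - 2 ^ N / 2 ^ q + 2 ^ ((4 / 5 : ℝ) * N) ∧
        ((∀ x, C.eval x g = true → List.ofFn x ∈ L) ∨
            (∀ x, C.eval x g = true → List.ofFn x ∉ L) →
          ({x : Fin N → Bool | C.eval x g = true}.ncard : ℝ) ≤
            2 ^ N - 2 * (2 ^ N / 2 ^ q) + 2 ^ ((4 / 5 : ℝ) * N)) := by
  classical
  refine ⟨L, inP_L, fun p k t r N hp hk ht hN hr I _ C hM' => ?_⟩
  have hM : ∀ h : I, (C.transforms h).ncard ^ (k * t) ≤ 2 ^ N := by
    rcases hM' with h | h
    · exact h
    · exact fun g => C.transforms_le_of_symmetries h g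
  have hp0 : 1 ≤ p := by
    rcases hp with h | h
    · exact h.ge
    · exact h.1.one_lt.le
  have hk40 : 40 ≤ k := by omega
  have hkt : k ≤ k * t := Nat.le_mul_of_pos_right k ht
  have hN40 : 40 ≤ N := by omega
  obtain ⟨q, hq1, hq2, hq3⟩ := C.determined (by omega) ht hN hr hp hM
  refine ⟨q, hq1, hq2, fun g => ?_⟩
  obtain ⟨S, hS1, hS2⟩ := hq3 g
  refine ⟨⟨S, hS1, hS2⟩, ?_⟩
  have hqodd : Odd q := by
    obtain ⟨e, rfl⟩ := hq1
    rcases hp with h | ⟨h1, h2⟩
    · rw [h, one_pow]
      exact odd_one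
    · exact (h1.odd_of_ne_two h2).pow
  have hqpos : 1 ≤ q := hqodd.pos
  have hq20 : 20 * q ≤ N := by
    have h1 : 40 * p * q ≤ 2 * p * N := (Nat.mul_le_mul_right q hk).trans hq2
    have h2 : (2 * p) * (20 * q) ≤ (2 * p) * N := by
      calc (2 * p) * (20 * q) = 40 * p * q := by ring
        _ ≤ 2 * p * N := h1
    exact Nat.le_of_mul_le_mul_left h2 (by omega)
  have hS20 : 20 * S.card ≤ N := by
    have h1 : 40 * S.card ≤ 2 * N := (Nat.mul_le_mul_right _ hk40).trans hS1
    omega
  obtain ⟨B, hB1, hB2⟩ : ∃ B : Finset (Fin N), B ⊆ Sᶜ ∧ B.card = q := by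
    refine Finset.exists_subset_card_eq ?_
    rw [Finset.card_compl, Fintype.card_fin]
    omega
  have hBS : ∀ i ∈ S, i ∉ B := fun i hi hiB => Finset.mem_compl.1 (hB1 hiB) hi
  have hinv : ∀ x : Fin N → Bool, Gd k B x → C.eval (flipB B x) g = C.eval x g := by
    intro x hx
    refine hS2 _ _ hx.2.2 hx.2.1 (fun i hi => flipB_of_notMem (hBS i hi) x) ?_
    rcases ones_gd hx with h | h
    · rw [h, hB2]
      simp [Nat.ModEq]
    · rw [h, hB2]
      simp [Nat.ModEq]
  have hpar : ∀ x : Fin N → Bool, Gd k B x →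
      ((List.ofFn (flipB B x) ∈ L) ↔ ¬ (List.ofFn x ∈ L)) := by
    intro x hx
    rw [mem_L_ofFn, mem_L_ofFn]
    change ones (flipB B x) % 2 = 1 ↔ ¬ ones x % 2 = 1
    obtain ⟨j, hj⟩ := hqodd
    rcases ones_gd hx with h | h
    · rw [h, hB2]
      omega
    · rw [h, hB2]
      omega
  have hbad := card_not_gd (N := N) hk40 hN40 B (by omega) (by omega)
  rw [hB2] at hbad
  constructor
  · have h1 := agree_count (k := k) (B := B) (f := fun x => C.eval x g)
      (P := fun x => List.ofFn x ∈ L) hinv hpar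
    have h2 : {x : Fin N → Bool | C.eval x g = true ↔ List.ofFn x ∈ L}.ncard =
        (Finset.univ.filter fun x : Fin N → Bool =>
          (C.eval x g = true ↔ List.ofFn x ∈ L)).card := by
      rw [← Set.ncard_coe_finset]
      congr 1
      ext x
      simp
    rw [h2]
    refine h1.trans ?_
    have h3 : (0 : ℝ) ≤ 2 ^ ((4 / 5 : ℝ) * N) := by positivity
    linarith
  · intro hone
    refine le_trans ?_ hbad
    rw [Nat.cast_le, ← Set.ncard_coe_finset]
    refine Set.ncard_le_ncard ?_ (Finset.finite_toSet _)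
    intro x hx
    change C.eval x g = true at hx
    rw [Finset.mem_coe, Finset.mem_filter]
    refine ⟨Finset.mem_univ _, fun hcon => ?_⟩
    have h1 : C.eval (flipB B x) g = true := (hinv x hcon).trans hx
    rcases hone with h2 | h2
    · exact (hpar x hcon).1 (h2 _ h1) (h2 _ hx)
    · exact h2 _ h1 ((hpar x hcon).2 (h2 _ hx))

end Pool.Agent.Results.MP_5f97e6_lc.FewTransformsMod
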