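import Pool.Agent.J6H29.FE.Final

/-!
# A language in P which requires circuits of size `2 ^ (ε n)` of bounded average formal degree
-/

set_option autoImplicit false

namespace Pool.Agent.Results.MP_5f97e6_lc.FormalDegree

open Pool.Agent.W896.RK Pool.Agent.NPC

/-- There is a language `L` in `P` with the following two properties for semi-unbounded circuits
(negations at the inputs, conjunctions of fan-in two, disjunctions of any fan-in) on `N` input bits
in which the formal degrees of the output gate in the bits of the second half of the input have a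
sum of at most `k * N` (there is no condition on the bits of the first half).

(1) For every `k` there is `ε > 0` such that for all large `N` every circuit of this kind which
computes `L` (`s = true`), or the complement of `L` (`s = false`), on `N` bits has at least
`2 ^ (ε * N)` gates.

(2) `L` and its complement are hard on average: if a circuit of this kind accepts only inputs in
`L` (resp. only inputs not in `L`), and at least `2 ^ N / 2 ^ δ` of the `2 ^ N` inputs, then it
has so many gates `G` that `N ≤ 2 ^ (48 * (k + 1)) * (δ + log G + 1)`. -/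
theorem result : ∃ L : Set (List Bool), InP L ∧
    (∀ k : ℕ, ∃ ε : ℝ, 0 < ε ∧ ∃ N₀ : ℕ, ∀ N ≥ N₀, ∀ (s : Bool) (U : Circ (Fin N))
      (d : U.G → {j : Fin N // N / 2 ≤ j.val} → ℕ),
      IsDeg U (fun j => j.val) d → ∑ j, d U.out j ≤ k * N →
      (∀ z, U.Val z U.out ↔ (List.ofFn z ∈ L ↔ s = true)) →
      (2 : ℝ) ^ (ε * N) ≤ Fintype.card U.G) ∧
    ∀ (N k δ : ℕ) (s : Bool) (U : Circ (Fin N)) (d : U.G → {j : Fin N // N / 2 ≤ j.val} → ℕ),
      IsDeg U (fun j => j.val) d → ∑ j, d U.out j ≤ k * N →
      (∀ z, U.Val z U.out → (List.ofFn z ∈ L ↔ s = true)) →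
      2 ^ N ≤ 2 ^ δ * Nat.card {z : Fin N → Bool // U.Val z U.out} →
      N ≤ 2 ^ (48 * (k + 1)) * (δ + Nat.log 2 (Fintype.card U.G) + 1) := by
  refine ⟨Pool.Agent.J6H29.FE.L, Pool.Agent.J6H29.FE.inP_L, Pool.Agent.J6H29.FE.final_eps, ?_⟩
  intro N k δ s U d hd hk hU hδ
  exact Pool.Agent.J6H29.FE.final_avg N k δ s U hU hδ d hd hk

end Pool.Agent.Results.MP_5f97e6_lc.FormalDegree
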