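import Pool.Agent.J6H29.TW.Lin

/-!
# A language in P which is exponentially hard on average for circuits of linear treewidth with
linearly many reads
-/

set_option autoImplicit false

namespace Pool.Agent.Results.MP_5f97e6_lc.LinearTreewidth

open Pool.Agent.NPC Pool.Agent.Y631.Wc

/-- There is a language `L` in `P` with the following two properties for word circuits on `N` input
bits. The number of gates may be arbitrarily large; each gate has fan-in at most `κ` and computes an
arbitrary function (or, in nondeterministic circuits, an arbitrary relation) of input bits and of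
earlier words from a set `Z` of at most `2 ^ w` words (`w = 1`: Boolean circuits). The treewidth is
that of the graph of the gates (without the input bits), and `C.reads` is the number of wires from
input bits to gates.

(1) For all `r` and `κ` there is `ε > 0` such that the following holds for all large `N` and all
circuits with at most `r * N` reads and of treewidth at most `θ` with `w * (θ + 1) ≤ ε * N`. If the
circuit is deterministic (or unambiguous), then it agrees with `L` on `1 / 2 ± 2 ^ (- ε * N) / 2` of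
all inputs. If it is nondeterministic and accepts only inputs in `L` (`s = true`), or only inputs not
in `L` (`s = false`), then it accepts at most `2 ^ ((1 - ε) * N)` inputs.

(2) The explicit form, for all `N`, `r`, `κ`, `θ` and circuits with at most `r * N` reads and of
treewidth at most `θ`. -/
theorem result : ∃ L : Set (List Bool), InP L ∧
    (∀ r κ : ℕ, ∃ ε : ℝ, 0 < ε ∧ ∃ N₀ : ℕ, ∀ N ≥ N₀,
      ∀ (Z : Type) [Fintype Z] (C : WCirc (Fin N) Bool Z) (w θ : ℕ), 1 ≤ w →
        Fintype.card Z ≤ 2 ^ w → C.FanIn κ → C.TreewidthLE θ → C.reads ≤ r * N →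
        (w : ℝ) * (θ + 1) ≤ ε * N →
        (∀ s : Bool, (∀ z, C.Accepts z → (List.ofFn z ∈ L ↔ s = true)) →
          (Nat.card {z // C.Accepts z} : ℝ) ≤ (2 : ℝ) ^ ((1 - ε) * N)) ∧
        (C.Unambiguous → |2 * (Nat.card {z // C.Accepts z ↔ List.ofFn z ∈ L} : ℝ) - 2 ^ N| ≤
          (2 : ℝ) ^ ((1 - ε) * N))) ∧
    ∀ (N r κ θ q : ℕ) (Z : Type) [Fintype Z] (C : WCirc (Fin N) Bool Z), 1 ≤ r → C.FanIn κ →
      C.TreewidthLE θ → C.reads ≤ r * N → 2 ≤ q → Fintype.card Z ≤ q →
      (∀ s : Bool, (∀ z, C.Accepts z → (List.ofFn z ∈ L ↔ s = true)) →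
        Nat.card {z // C.Accepts z} * 2 ^ (N / 4 / 4 ^ (36 * r + 1)) ≤
          q ^ (90000 * r ^ 2 * (κ + 1) * (θ + 1)) * 2 ^ N) ∧
      (C.Unambiguous → |2 * (Nat.card {z // C.Accepts z ↔ List.ofFn z ∈ L} : ℝ) - 2 ^ N| *
        2 ^ (N / 4 / 4 ^ (36 * r + 1)) ≤
          3 * q ^ (90000 * r ^ 2 * (κ + 1) * (θ + 1)) * 2 ^ N) :=
  ⟨Pool.Agent.J6H29.FE.L, Pool.Agent.J6H29.FE.inP_L, Pool.Agent.J6H29.TW.lin,
    fun _ _ _ _ _ _ _ C hr hκ hθ hR hq hZ =>
      ⟨fun s hs => Pool.Agent.J6H29.TW.nondet C hr hκ hθ hR hq hZ s hs,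
        fun hU => Pool.Agent.J6H29.TW.unamb C hr hκ hθ hR hq hZ hU⟩⟩

end Pool.Agent.Results.MP_5f97e6_lc.LinearTreewidth
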