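import Pool.Agent.J6H49.SZ.Main

/-!
# Exponential time has circuits of size `2 ^ o(n)` relative to nearly collapsed oracles

If `P = NP` then some language decidable in time `2 ^ O(n)` requires circuits of exponential size,
and this relativizes (then the first function of `n` variables of large circuit complexity can be
found in time `2 ^ O(n)`). We show that for relativizing proofs the assumption cannot be weakened: for
an arbitrarily slowly growing unbounded function `α` there are oracles relative to which polynomial
space is contained in deterministic time `n ^ O(α n)`, and likewise for exponential and double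
exponential space, and nevertheless every language decidable in time `2 ^ O(n)` has circuits of size
`2 ^ o(n)`, with oracle gates, for all input lengths.
-/

set_option autoImplicit false

namespace Pool.Agent.Results.MP_5f97e6_lc.NearCollapseSmallCircuits

open MeasureTheory Pool.Agent.NPC Pool.Agent.H628R3.RO Pool.Agent.J6H49.OP Pool.Agent.J6H49.SZ
open Pool.Agent.J6H49.ES (InTimePow)

/-- Let `α : ℕ → ℕ` be nondecreasing and unbounded and let `C` be any oracle. There is a map `O` on
the oracles such that `O A` contains `A` and `C` and is nearly collapsed with the function `α`, for
every `A`, and for a random oracle `A` (fair coin tosses), with probability one, every language `L`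
in time `2 ^ O(n)` relative to `O A` is computed on the inputs of length `n` by a circuit with oracle
gates of size at most `2 ^ (n / k)`, for every `k` and all large `n`. -/
theorem result (α : ℕ → ℕ) (hα : Monotone α) (hα' : Filter.Tendsto α Filter.atTop Filter.atTop)
    (C : Oracle) : ∃ O : Oracle → Oracle,
      (∀ A, NearlyCollapsed α (O A) ∧ Contains (O A) A ∧ Contains (O A) C) ∧
      ∀ᵐ A ∂randomOracle, ∀ L : Set (List Bool), InTimePow (fun n => 2 ^ (n + 1)) (O A) L →
        ∀ k : ℕ, ∀ᶠ n : ℕ in Filter.atTop, ∃ D : List Gate, size D ^ k ≤ 2 ^ n ∧
          Computes (O A) D L n :=
  Pool.Agent.J6H49.SZ.main α hα hα' C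

end Pool.Agent.Results.MP_5f97e6_lc.NearCollapseSmallCircuits
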